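import Pool.Agent.H60.CM.Basic

/-!
# Stable surfaces of constant mean curvature spanning a circle: boundary curves
-/

set_option autoImplicit false

open Set Function MeasureTheory Filter Topology
open scoped Manifold ContDiff Matrix
open Pool.Agent.H60.CM

namespace Pool.Agent.H77.CM

theorem pf_BCV : T_BCV := by
  intro D p hp
  have hy0 : (extChartAt (𝓡∂ 2) p p) 0 = 0 := by
    have h1 : (𝓡∂ 2).IsBoundaryPoint p := hp
    rw [ModelWithCorners.isBoundaryPoint_iff,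
      frontier_range_modelWithCornersEuclideanHalfSpace] at h1
    exact h1.symm
  have he0 : (ee 1) 0 = 0 := by
    simp [ee]
  have hc0 : ∀ t : ℝ, (extChartAt (𝓡∂ 2) p p + t • ee 1) 0 = 0 := by
    intro t
    have h1 : (extChartAt (𝓡∂ 2) p p + t • ee 1) 0 =
        (extChartAt (𝓡∂ 2) p p) 0 + t * (ee 1) 0 := rfl
    rw [h1, hy0, he0, mul_zero, add_zero]
  have hcr : ∀ t : ℝ, extChartAt (𝓡∂ 2) p p + t • ee 1 ∈ range (𝓡∂ 2) := by
    intro t
    rw [range_modelWithCornersEuclideanHalfSpace]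
    exact (hc0 t).ge
  have hcd : HasDerivAt (fun t : ℝ => extChartAt (𝓡∂ 2) p p + t • ee 1) (ee 1) 0 := by
    have h1 := ((hasDerivAt_id (0 : ℝ)).smul_const (ee 1)).const_add (extChartAt (𝓡∂ 2) p p)
    simpa using h1
  have hc00 : extChartAt (𝓡∂ 2) p p + (0 : ℝ) • ee 1 = extChartAt (𝓡∂ 2) p p := by
    rw [zero_smul, add_zero]
  refine ⟨fun t => (extChartAt (𝓡∂ 2) p).symm (extChartAt (𝓡∂ 2) p p + t • ee 1), ?_, ?_, ?_⟩
  · show (extChartAt (𝓡∂ 2) p).symm (extChartAt (𝓡∂ 2) p p + (0 : ℝ) • ee 1) = p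
    rw [hc00]
    exact extChartAt_to_inv p
  · have ht : Tendsto (fun t : ℝ => extChartAt (𝓡∂ 2) p p + t • ee 1) (𝓝 0)
        (𝓝[range (𝓡∂ 2)] (extChartAt (𝓡∂ 2) p p)) := by
      rw [tendsto_nhdsWithin_iff]
      refine ⟨?_, Eventually.of_forall hcr⟩
      have h1 := hcd.continuousAt
      rw [ContinuousAt, hc00] at h1
      exact h1
    filter_upwards [ht (extChartAt_target_mem_nhdsWithin (I := 𝓡∂ 2) p)] with t ht1
    have ht2 : extChartAt (𝓡∂ 2) p p + t • ee 1 ∈ (extChartAt (𝓡∂ 2) p).target := ht1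
    have hs : (extChartAt (𝓡∂ 2) p).symm (extChartAt (𝓡∂ 2) p p + t • ee 1) ∈
        (extChartAt (𝓡∂ 2) p).source := (extChartAt (𝓡∂ 2) p).map_target ht2
    rw [← D.not_int]
    intro hin
    have hin2 : (𝓡∂ 2).IsInteriorPoint
        ((extChartAt (𝓡∂ 2) p).symm (extChartAt (𝓡∂ 2) p p + t • ee 1)) := hin
    rw [(𝓡∂ 2).isInteriorPoint_iff_of_mem_atlas (n := ∞) (by simp)
      (chart_mem_atlas (EuclideanHalfSpace 2) p) (by rwa [extChartAt_source] at hs)] at hin2
    have h3 : (extChartAt (𝓡∂ 2) p) ((extChartAt (𝓡∂ 2) p).symm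
        (extChartAt (𝓡∂ 2) p p + t • ee 1)) ∈ interior (range (𝓡∂ 2)) :=
      interior_mono (extChartAt_target_subset_range (I := 𝓡∂ 2) p) hin2
    rw [(extChartAt (𝓡∂ 2) p).right_inv ht2,
      interior_range_modelWithCornersEuclideanHalfSpace] at h3
    have h4 : 0 < (extChartAt (𝓡∂ 2) p p + t • ee 1) 0 := h3
    rw [hc0 t] at h4
    exact lt_irrefl _ h4
  · intro F _ _ f hf
    have h1 : MD f p := Dat.Sm.md D hf p
    rw [dd_eq h1]
    have h2 := h1.diffWithin.hasFDerivWithinAt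
    have h3 := h2.comp_hasDerivWithinAt_of_eq (x := (0 : ℝ)) (s := univ)
      (f := fun t : ℝ => extChartAt (𝓡∂ 2) p p + t • ee 1) hcd.hasDerivWithinAt
      (fun t _ => hcr t) hc00.symm
    rw [hasDerivWithinAt_univ] at h3
    exact h3

end Pool.Agent.H77.CM
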