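import Pool.Agent.H60.CM.Basic

/-!
# Stable surfaces of constant mean curvature spanning a circle: the half circle lies in a half
-/

set_option autoImplicit false

open Set Function MeasureTheory Filter Topology
open scoped Manifold ContDiff Matrix
open Pool.Agent.H60.CM

namespace Pool.Agent.H77.CM

theorem pf_HCR (h1 : T_BPC) : T_HCR := by
  intro D τ A _ hmir hA
  obtain ⟨-, -, -, hpc⟩ := h1 D
  have hop : IsOpen (τ ⁻¹' A) := hA.isOpen.preimage τ.continuous
  have hcov : {p | p ∈ D.bd ∧ 0 < D.x p 1} ⊆ A ∪ τ ⁻¹' A := by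
    intro p hp
    have hne : τ p ≠ p := by
      intro h
      have h2 := hmir p
      rw [h] at h2
      have h3 : D.x p 1 = -D.x p 1 := congrFun h2 1
      have h4 : 0 < D.x p 1 := hp.2
      linarith
    exact (hA.cover p).1 hne
  rcases IsPreconnected.subset_or_subset hA.isOpen hop hA.disj hcov hpc with h | h
  · left
    intro p hp hp1
    exact h ⟨hp, hp1⟩
  · right
    intro p hp hp1
    exact h ⟨hp, hp1⟩

end Pool.Agent.H77.CM
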